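import Pool.Agent.Run7.h937.LG.Stm

/-!
# NL
-/

set_option autoImplicit false

namespace Pool.Agent.Run7.h937.LG

/-- vertex `a` of copy `c` -/
def vtx (c : Fin 3) (a : Fin 8) : Fin 24 := ⟨8 * c.val + a.val, by omega⟩

theorem seg_mem {p q z : ℝ × ℝ} (h : z ∈ segment ℝ p q) :
    min p.1 q.1 ≤ z.1 ∧ z.1 ≤ max p.1 q.1 ∧ min p.2 q.2 ≤ z.2 ∧ z.2 ≤ max p.2 q.2 := by
  obtain ⟨a, b, ha, hb, hab, rfl⟩ := h
  simp only [Prod.fst_add, Prod.snd_add, Prod.smul_fst, Prod.smul_snd, smul_eq_mul]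
  have e1 : a = 1 - b := by linarith
  subst e1
  refine ⟨?_, ?_, ?_, ?_⟩
  · nlinarith [mul_le_mul_of_nonneg_left (min_le_left p.1 q.1) ha,
      mul_le_mul_of_nonneg_left (min_le_right p.1 q.1) hb]
  · nlinarith [mul_le_mul_of_nonneg_left (le_max_left p.1 q.1) ha,
      mul_le_mul_of_nonneg_left (le_max_right p.1 q.1) hb]
  · nlinarith [mul_le_mul_of_nonneg_left (min_le_left p.2 q.2) ha,
      mul_le_mul_of_nonneg_left (min_le_right p.2 q.2) hb]
  · nlinarith [mul_le_mul_of_nonneg_left (le_max_left p.2 q.2) ha,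
      mul_le_mul_of_nonneg_left (le_max_right p.2 q.2) hb]

theorem bent_mem {x y r t : ℝ} (hr : x < r) {z : ℝ × ℝ} (h : z ∈ bent x y r t) :
    x ≤ z.1 ∧ z.1 ≤ r ∧ min y t ≤ z.2 ∧ z.2 ≤ max y t := by
  rcases h with h | h
  · obtain ⟨h1, h2, h3, h4⟩ := seg_mem h
    simp only [min_self, max_self] at h1 h2
    exact ⟨h1, h2.trans hr.le, h3, h4⟩
  · obtain ⟨h1, h2, h3, h4⟩ := seg_mem h
    simp only [min_self, max_self] at h3 h4
    simp only [min_eq_left hr.le, max_eq_right hr.le] at h1 h2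
    exact ⟨h1, h2, (min_le_left _ _).trans h3, h4.trans (le_max_left _ _)⟩

theorem dis_vtx : ∀ c a b, dis (vtx c a) (vtx c b) = adj a b := by decide +kernel

theorem dis_other : ∀ c c' a b, c ≠ c' → dis (vtx c a) (vtx c' b) = false := by decide +kernel

theorem vtx_other : ∀ c c' a b, c ≠ c' → vtx c a ≠ vtx c' b := by decide +kernel

theorem vtx_inj : ∀ c a b, a ≠ b → vtx c a ≠ vtx c b := by decide +kernel

theorem t_NL (hORD : S_ORD) : S_NL := by
  rintro ⟨x, y, r, t, hpos, hinj, hH⟩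
  have key : ∀ c c' a b, c ≠ c' → x (vtx c a) ≤ r (vtx c' b) ∧
      min (y (vtx c a)) (t (vtx c a)) ≤ max (y (vtx c' b)) (t (vtx c' b)) := by
    intro c c' a b h
    have h1 : H.Adj (vtx c a) (vtx c' b) := ⟨vtx_other c c' a b h, dis_other c c' a b h⟩
    obtain ⟨z, hz, hz'⟩ := (hH _ _ (vtx_other c c' a b h)).1 h1
    have e1 := bent_mem (hpos _).1 hz
    have e2 := bent_mem (hpos _).1 hz'
    exact ⟨e1.1.trans e2.2.1, e1.2.2.1.trans e2.2.2.2⟩
  have hX : ∀ c c', (∃ a b, r (vtx c b) < x (vtx c a)) → (∃ a b, r (vtx c' b) < x (vtx c' a)) →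
      c = c' := by
    rintro c c' ⟨a, b, h1⟩ ⟨a', b', h2⟩
    by_contra hne
    have e1 := (key c' c a' b (Ne.symm hne)).1
    have e2 := (key c c' a b' hne).1
    linarith
  have hY : ∀ c c', (∃ a b, max (y (vtx c b)) (t (vtx c b)) < min (y (vtx c a)) (t (vtx c a))) →
      (∃ a b, max (y (vtx c' b)) (t (vtx c' b)) < min (y (vtx c' a)) (t (vtx c' a))) →
      c = c' := by
    rintro c c' ⟨a, b, h1⟩ ⟨a', b', h2⟩
    by_contra hne
    have e1 := (key c' c a' b (Ne.symm hne)).2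
    have e2 := (key c c' a b' hne).2
    linarith
  have hex : ∃ c, (¬ ∃ a b, r (vtx c b) < x (vtx c a)) ∧
      ¬ ∃ a b, max (y (vtx c b)) (t (vtx c b)) < min (y (vtx c a)) (t (vtx c a)) := by
    by_contra hno
    have hb : ∀ c, (∃ a b, r (vtx c b) < x (vtx c a)) ∨
        ∃ a b, max (y (vtx c b)) (t (vtx c b)) < min (y (vtx c a)) (t (vtx c a)) := by
      intro c
      by_contra h
      rw [not_or] at h
      exact hno ⟨c, h.1, h.2⟩
    rcases hb 0 with h0 | h0 <;> rcases hb 1 with h1 | h1 <;> rcases hb 2 with h2 | h2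
    · exact absurd (hX _ _ h0 h1) (by decide)
    · exact absurd (hX _ _ h0 h1) (by decide)
    · exact absurd (hX _ _ h0 h2) (by decide)
    · exact absurd (hY _ _ h1 h2) (by decide)
    · exact absurd (hX _ _ h1 h2) (by decide)
    · exact absurd (hY _ _ h0 h2) (by decide)
    · exact absurd (hY _ _ h0 h1) (by decide)
    · exact absurd (hY _ _ h0 h1) (by decide)
  obtain ⟨c, hc1, hc2⟩ := hex
  refine hORD (fun a => x (vtx c a)) (fun a => y (vtx c a)) (fun a => r (vtx c a))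
    (fun a => t (vtx c a)) (fun a => hpos _) (fun a b ha hb => hinj _ _ ha hb) ?_ ?_ ?_
  · intro a b
    by_contra h
    exact hc1 ⟨a, b, not_le.1 h⟩
  · intro a b
    by_contra h
    exact hc2 ⟨a, b, not_le.1 h⟩
  · intro a b hab
    rw [← hH _ _ (vtx_inj c a b hab), ← dis_vtx c a b]
    exact ⟨fun h => ⟨vtx_inj c a b hab, h⟩, fun h => h.2⟩

end Pool.Agent.Run7.h937.LG
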