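import Pool.Agent.Run7.h937.LG.Stm

/-!
# ORD
-/

set_option autoImplicit false

namespace Pool.Agent.Run7.h937.LG

theorem seg_v {x y t : ℝ} {z : ℝ × ℝ} :
    z ∈ segment ℝ (x, y) (x, t) ↔ z.1 = x ∧ min y t ≤ z.2 ∧ z.2 ≤ max y t := by
  have h : segment ℝ (x, y) (x, t) = {x} ×ˢ segment ℝ y t := by
    ext ⟨u, v⟩
    constructor
    · rintro ⟨a, b, ha, hb, hab, h⟩
      rw [Prod.ext_iff] at h
      simp only [Prod.fst_add, Prod.snd_add, Prod.smul_fst, Prod.smul_snd, smul_eq_mul] at h
      refine ⟨?_, a, b, ha, hb, hab, h.2⟩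
      have : a * x + b * x = x := by rw [← add_mul, hab, one_mul]
      exact h.1.symm.trans this
    · rintro ⟨h1, a, b, ha, hb, hab, h⟩
      refine ⟨a, b, ha, hb, hab, ?_⟩
      have h1' : u = x := h1
      subst h1'
      have : a * u + b * u = u := by rw [← add_mul, hab, one_mul]
      exact Prod.ext this h
  rw [h, segment_eq_uIcc, Set.mem_prod, Set.mem_singleton_iff, Set.uIcc, Set.mem_Icc]

theorem seg_h {x y r : ℝ} (hr : x < r) {z : ℝ × ℝ} :
    z ∈ segment ℝ (x, y) (r, y) ↔ z.2 = y ∧ x ≤ z.1 ∧ z.1 ≤ r := by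
  have h : segment ℝ (x, y) (r, y) = segment ℝ x r ×ˢ {y} := by
    ext ⟨u, v⟩
    constructor
    · rintro ⟨a, b, ha, hb, hab, h⟩
      rw [Prod.ext_iff] at h
      simp only [Prod.fst_add, Prod.snd_add, Prod.smul_fst, Prod.smul_snd, smul_eq_mul] at h
      refine ⟨⟨a, b, ha, hb, hab, h.1⟩, ?_⟩
      have : a * y + b * y = y := by rw [← add_mul, hab, one_mul]
      exact h.2.symm.trans this
    · rintro ⟨⟨a, b, ha, hb, hab, h⟩, h1⟩
      refine ⟨a, b, ha, hb, hab, ?_⟩
      have h1' : v = y := h1
      subst h1'
      have : a * v + b * v = v := by rw [← add_mul, hab, one_mul]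
      exact Prod.ext h this
  rw [h, segment_eq_Icc hr.le, Set.mem_prod, Set.mem_singleton_iff, Set.mem_Icc]
  tauto

theorem mem_bent {x y r t : ℝ} (hr : x < r) {z : ℝ × ℝ} :
    z ∈ bent x y r t ↔ (z.1 = x ∧ min y t ≤ z.2 ∧ z.2 ≤ max y t) ∨
      (z.2 = y ∧ x ≤ z.1 ∧ z.1 ≤ r) := by
  unfold bent
  rw [Set.mem_union, seg_v, seg_h hr]

/-- shapes with the same first coordinate of the corner meet -/
theorem meet_eq {x y r t y' r' t' : ℝ} (hr : x < r) (hr' : x < r')
    (h1 : min y t ≤ max y' t') (h2 : min y' t' ≤ max y t) :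
    (bent x y r t ∩ bent x y' r' t').Nonempty := by
  refine ⟨(x, max (min y t) (min y' t')), ?_, ?_⟩
  · rw [mem_bent hr]
    exact Or.inl ⟨rfl, le_max_left _ _, max_le (min_le_max) h2⟩
  · rw [mem_bent hr']
    exact Or.inl ⟨rfl, le_max_right _ _, max_le h1 (min_le_max)⟩

/-- the shape with the corner further to the left is met iff its horizontal arm is -/
theorem meet_lt {x y r t x' y' r' t' : ℝ} (hr : x < r) (hr' : x' < r') (hx : x < x')
    (hx' : x' ≤ r) :
    (bent x y r t ∩ bent x' y' r' t').Nonempty ↔ min y' t' ≤ y ∧ y ≤ max y' t' := by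
  constructor
  · rintro ⟨z, hz, hz'⟩
    rw [mem_bent hr] at hz
    rw [mem_bent hr'] at hz'
    rcases hz with ⟨e1, _, _⟩ | ⟨e1, e2, e3⟩
    · rcases hz' with ⟨e4, _, _⟩ | ⟨_, e5, _⟩
      · linarith
      · linarith
    · rcases hz' with ⟨_, e5, e6⟩ | ⟨e4, _, _⟩
      · rw [e1] at e5 e6
        exact ⟨e5, e6⟩
      · rw [← e1, e4]
        exact ⟨min_le_left _ _, le_max_left _ _⟩
  · rintro ⟨h1, h2⟩
    refine ⟨(x', y), ?_, ?_⟩
    · rw [mem_bent hr]
      exact Or.inr ⟨rfl, hx.le, hx'⟩
    · rw [mem_bent hr']
      exact Or.inl ⟨rfl, h1, h2⟩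

theorem adj_symm : ∀ a b, adj a b = adj b a := by decide +kernel

theorem adj_irr : ∀ a, adj a a = false := by decide +kernel

theorem no_tri : ∀ a b c, adj a b = true → adj b c = true → adj a c = false := by decide +kernel

open Classical in
theorem t_ORD (hCMB : S_CMB) : S_ORD := by
  intro x y r t hpos hinj hX hY hrep
  -- type
  let u : Fin 8 → Bool := fun a => decide (y a < t a)
  -- key
  let k : Fin 8 → ℝ := fun a => if y a < t a then -y a else y a
  let f : Fin 8 → ℝ ×ₗ (ℝ ×ₗ ℝ) := fun a =>
    toLex (x a, toLex ((if y a < t a then (0 : ℝ) else 1), k a))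
  let s := Tuple.sort f
  have hs : Monotone (f ∘ s) := Tuple.monotone_sort f
  -- facts on the order
  have hle : ∀ i j : Fin 8, i < j → x (s i) ≤ x (s j) := by
    intro i j hij
    have h := hs hij.le
    simp only [Function.comp, f] at h
    rw [Prod.Lex.toLex_le_toLex] at h
    rcases h with h | h
    · exact h.le
    · exact h.1.le
  have htie : ∀ i j : Fin 8, i < j → x (s i) = x (s j) → u (s i) = u (s j) →
      k (s i) ≤ k (s j) := by
    intro i j hij hxe hue
    have h := hs hij.le
    simp only [Function.comp, f] at h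
    rw [Prod.Lex.toLex_le_toLex] at h
    rcases h with h | h
    · exact absurd h (by simp only; rw [hxe]; exact lt_irrefl _)
    · have h2 := h.2
      rw [Prod.Lex.toLex_le_toLex] at h2
      have hty : (if y (s i) < t (s i) then (0 : ℝ) else 1) =
          (if y (s j) < t (s j) then (0 : ℝ) else 1) := by
        have : (y (s i) < t (s i)) ↔ (y (s j) < t (s j)) := by
          simpa [u] using hue
        simp only [this]
      rcases h2 with h2 | h2
      · exact absurd h2 (by simp only; rw [hty]; exact lt_irrefl _)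
      · exact h2.2
  -- disjointness of shapes
  have hD : ∀ a b, x a < x b → (adj a b = true ↔ if y a < t a then y a < min (y b) (t b)
      else max (y b) (t b) < y a) := by
    intro a b hab
    have hne : a ≠ b := fun h => by rw [h] at hab; exact lt_irrefl _ hab
    have h1 := hrep a b hne
    rw [meet_lt (hpos a).1 (hpos b).1 hab (hX b a)] at h1
    have h2 := hY a b
    have h3 := hY b a
    rw [← Bool.not_eq_false, h1, not_and_or, not_le, not_le]
    split_ifs with h4
    · constructor
      · rintro (h | h)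
        · exact h
        · exfalso
          rw [min_eq_left h4.le] at h2
          linarith
      · exact Or.inl
    · have h5 : t a < y a := lt_of_le_of_ne (not_lt.1 h4) (hpos a).2.symm
      constructor
      · rintro (h | h)
        · exfalso
          rw [max_eq_left h5.le] at h3
          linarith
        · exact h
      · exact Or.inr
  have hE : ∀ a b, a ≠ b → x a = x b → adj a b = false := by
    intro a b hne hab
    rw [hrep a b hne, ← hab]
    have h1 := (hpos b).1
    rw [← hab] at h1
    exact meet_eq (hpos a).1 h1 (hY a b) (hY b a)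
  have hlt : ∀ i j : Fin 8, i < j → adj (s i) (s j) = true → x (s i) < x (s j) := by
    intro i j hij h
    refine lt_of_le_of_ne (hle i j hij) fun he => ?_
    rw [hE _ _ (fun e => hij.ne (s.injective e)) he] at h
    exact Bool.false_ne_true h
  apply hCMB s u
  intro i j hij hu
  have hu' : (y (s i) < t (s i)) ↔ (y (s j) < t (s j)) := by simpa [u] using hu
  constructor
  · intro hadj l hl
    by_contra hcon
    have hcon' : adj (s j) (s l) = true := by simpa using hcon
    have hx1 := hlt i j hij hadj
    have hx2 := hlt j l hl hcon'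
    have e1 := (hD _ _ hx1).1 hadj
    have e2 := (hD _ _ hx2).1 hcon'
    have e3 : adj (s i) (s l) = true := by
      rw [hD _ _ (hx1.trans hx2)]
      by_cases h4 : y (s i) < t (s i)
      · rw [if_pos h4] at e1 ⊢
        rw [if_pos (hu'.1 h4)] at e2
        exact (e1.trans_le (min_le_left _ _)).trans e2
      · rw [if_neg h4] at e1 ⊢
        rw [if_neg (fun h => h4 (hu'.2 h))] at e2
        exact e2.trans ((le_max_left _ _).trans_lt e1)
    have := no_tri _ _ _ hadj hcon'
    rw [e3] at this
    exact Bool.false_ne_true this.symm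
  · intro hnadj l hl hadj
    have hx1 := hlt i l (hij.trans hl) hadj
    have e1 := (hD _ _ hx1).1 hadj
    -- the comparison of `s i` and `s j`
    have hcmp : if y (s i) < t (s i) then y (s j) ≤ y (s i) else y (s i) ≤ y (s j) := by
      rcases (hle i j hij).lt_or_eq with hx2 | hx2
      · have e2 : ¬ _ := fun h => Bool.false_ne_true (hnadj.symm.trans ((hD _ _ hx2).2 h))
        by_cases h4 : y (s i) < t (s i)
        · rw [if_pos h4] at e2 ⊢
          rw [min_eq_left (hu'.1 h4).le] at e2
          exact not_lt.1 e2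
        · rw [if_neg h4] at e2 ⊢
          have h5 : t (s j) ≤ y (s j) := not_lt.1 (fun h => h4 (hu'.2 h))
          rw [max_eq_left h5] at e2
          exact not_lt.1 e2
      · have e2 := htie i j hij hx2 hu
        simp only [k] at e2
        by_cases h4 : y (s i) < t (s i)
        · rw [if_pos h4]
          rw [if_pos h4, if_pos (hu'.1 h4)] at e2
          linarith
        · rw [if_neg h4]
          rw [if_neg h4, if_neg (fun h => h4 (hu'.2 h))] at e2
          exact e2
    have hx3 : x (s j) < x (s l) := by
      refine lt_of_le_of_ne (hle j l hl) fun he => ?_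
      by_cases h4 : y (s i) < t (s i)
      · rw [if_pos h4] at e1 hcmp
        have h5 := hu'.1 h4
        by_cases h6 : y (s l) < t (s l)
        · have e2 := htie j l hl he (by simp [u, h5, h6])
          simp only [k] at e2
          rw [if_pos h5, if_pos h6] at e2
          rw [min_eq_left h6.le] at e1
          linarith
        · exact hinj _ _ h5 (lt_of_le_of_ne (not_lt.1 h6) (hpos _).2.symm) he
      · rw [if_neg h4] at e1 hcmp
        have h5 : ¬ y (s j) < t (s j) := fun h => h4 (hu'.2 h)
        by_cases h6 : y (s l) < t (s l)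
        · exact hinj _ _ h6 (lt_of_le_of_ne (not_lt.1 h5) (hpos _).2.symm) he.symm
        · have e2 := htie j l hl he (by simp [u, h5, h6])
          simp only [k] at e2
          rw [if_neg h5, if_neg h6] at e2
          rw [max_eq_left (not_lt.1 h6)] at e1
          linarith
    rw [hD _ _ hx3]
    by_cases h4 : y (s i) < t (s i)
    · rw [if_pos h4] at e1 hcmp
      rw [if_pos (hu'.1 h4)]
      exact hcmp.trans_lt e1
    · rw [if_neg h4] at e1 hcmp
      rw [if_neg (fun h => h4 (hu'.2 h))]
      exact e1.trans_le hcmp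

end Pool.Agent.Run7.h937.LG
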