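import Pool.Agent.Run7.h937.LG.Stm

/-!
# CMB: staged check on the cube
-/

set_option autoImplicit false

namespace Pool.Agent.Run7.h937.LG

/-- the condition on a vertex `v` of type `tv` (after the vertices of `l`, latest first) with
respect to an earlier vertex `w` of type `tw` -/
def okp (l : List (Fin 8)) (v : Fin 8) (tv : Bool) (w : Fin 8) (tw : Bool) : Bool :=
  tv != tw ||
    (if adj w v then (List.finRange 8).all fun k => k == v || l.contains k || !adj v k
      else (List.finRange 8).all fun k => k == v || l.contains k || !adj w k || adj v k)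

theorem ok_of {s : Equiv.Perm (Fin 8)} {u : Fin 8 → Bool} (h : R s u) (i j : Fin 8) (hij : i < j)
    (l : List (Fin 8)) (hl : ∀ k, k < j → s k ∈ l) :
    okp l (s j) (u (s j)) (s i) (u (s i)) = true := by
  unfold okp
  by_cases hu : u (s i) = u (s j)
  · obtain ⟨h1, h2⟩ := h i j hij hu
    rw [hu]
    simp only [bne_self_eq_false, Bool.false_or]
    have hk : ∀ k, k = s j ∨ k ∈ l ∨ ∃ m, j < m ∧ k = s m := by
      intro k
      obtain ⟨m, rfl⟩ := s.surjective k
      rcases lt_trichotomy m j with h3 | h3 | h3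
      · exact Or.inr (Or.inl (hl m h3))
      · exact Or.inl (by rw [h3])
      · exact Or.inr (Or.inr ⟨m, h3, rfl⟩)
    split_ifs with ha
    · rw [List.all_eq_true]
      intro k _
      rcases hk k with h3 | h3 | ⟨m, h3, h4⟩
      · simp [h3]
      · simp [h3]
      · rw [h4, h1 ha m h3]; simp
    · rw [List.all_eq_true]
      intro k _
      have ha' : adj (s i) (s j) = false := by simpa using ha
      rcases hk k with h3 | h3 | ⟨m, h3, h4⟩
      · simp [h3]
      · simp [h3]
      · rw [h4]
        by_cases h5 : adj (s i) (s m) = true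
        · rw [h2 ha' m h3 h5]; simp
        · have h6 : adj (s i) (s m) = false := by simpa using h5
          rw [h6]; simp
  · have : (u (s j) != u (s i)) = true := by
      rw [bne_iff_ne]; exact Ne.symm hu
    rw [this]; rfl

theorem stage : ∀ a b : Fin 8, a ≠ b → ∀ ta tb : Bool, okp [a] b tb a ta = true →
    ∀ c : Fin 8, c ≠ a → c ≠ b → ∀ tc : Bool, okp [b, a] c tc a ta = true →
    okp [b, a] c tc b tb = true →
    ∀ d : Fin 8, d ≠ a → d ≠ b → d ≠ c → ∀ td : Bool, okp [c, b, a] d td a ta = true →
    okp [c, b, a] d td b tb = true → okp [c, b, a] d td c tc = true →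
    ∀ e : Fin 8, e ≠ a → e ≠ b → e ≠ c → e ≠ d → ∀ te : Bool,
    okp [d, c, b, a] e te a ta = true → okp [d, c, b, a] e te b tb = true →
    okp [d, c, b, a] e te c tc = true → okp [d, c, b, a] e te d td = false := by
  decide +kernel

theorem t_CMB : S_CMB := by
  intro s u h
  have hne : ∀ i j : Fin 8, i ≠ j → s i ≠ s j := fun i j hij e => hij (s.injective e)
  have l1 : ∀ k : Fin 8, k < 1 → s k ∈ [s 0] := by
    intro k hk; fin_cases k <;> first | (exact absurd hk (by decide)) | simp
  have l2 : ∀ k : Fin 8, k < 2 → s k ∈ [s 1, s 0] := by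
    intro k hk; fin_cases k <;> first | (exact absurd hk (by decide)) | simp
  have l3 : ∀ k : Fin 8, k < 3 → s k ∈ [s 2, s 1, s 0] := by
    intro k hk; fin_cases k <;> first | (exact absurd hk (by decide)) | simp
  have l4 : ∀ k : Fin 8, k < 4 → s k ∈ [s 3, s 2, s 1, s 0] := by
    intro k hk; fin_cases k <;> first | (exact absurd hk (by decide)) | simp
  have h1 := stage (s 0) (s 1) (hne _ _ (by decide)) (u (s 0)) (u (s 1))
    (ok_of h 0 1 (by decide) _ l1) (s 2) (hne _ _ (by decide)) (hne _ _ (by decide)) (u (s 2))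
    (ok_of h 0 2 (by decide) _ l2) (ok_of h 1 2 (by decide) _ l2)
    (s 3) (hne _ _ (by decide)) (hne _ _ (by decide)) (hne _ _ (by decide)) (u (s 3))
    (ok_of h 0 3 (by decide) _ l3) (ok_of h 1 3 (by decide) _ l3) (ok_of h 2 3 (by decide) _ l3)
    (s 4) (hne _ _ (by decide)) (hne _ _ (by decide)) (hne _ _ (by decide)) (hne _ _ (by decide))
    (u (s 4)) (ok_of h 0 4 (by decide) _ l4) (ok_of h 1 4 (by decide) _ l4)
    (ok_of h 2 4 (by decide) _ l4)
  have h2 := ok_of h 3 4 (by decide) [s 3, s 2, s 1, s 0] l4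
  rw [h1] at h2
  exact Bool.false_ne_true h2

end Pool.Agent.Run7.h937.LG
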