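import Mathlib

/-!
# MP_34d506_co: a segment graph and one-bend graph without an L-Gamma representation
(in general position)

`H` is the complement of three disjoint cubes. Two disjoint shapes of one cube with disjoint
projections to an axis can occur in at most one of the three cubes (for each axis), so in the third
cube the boxes have a common point. There the shapes are ordered from left to right, and the
disjointness relation of shapes of one type is nested; this is impossible for the cube.
-/

set_option autoImplicit false

namespace Pool.Agent.Run7.h937.LG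

/-- segment graphs -/
def IsSEG {V : Type} (H : SimpleGraph V) : Prop :=
  ∃ p q : V → ℝ × ℝ, (∀ a, p a ≠ q a) ∧ ∀ a b, a ≠ b →
    (H.Adj a b ↔ (segment ℝ (p a) (q a) ∩ segment ℝ (p b) (q b)).Nonempty)

/-- The union of the vertical segment from `(x, y)` to `(x, t)` and the horizontal segment from
`(x, y)` to `(r, y)`. -/
def bent (x y r t : ℝ) : Set (ℝ × ℝ) := segment ℝ (x, y) (x, t) ∪ segment ℝ (x, y) (r, y)

/-- one-bend VPG graphs -/
def IsB1VPG {V : Type} (H : SimpleGraph V) : Prop :=
  ∃ x y r t : V → ℤ, ∀ a b, a ≠ b →
    (H.Adj a b ↔ (bent (x a) (y a) (r a) (t a) ∩ bent (x b) (y b) (r b) (t b)).Nonempty)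

/-- graphs of L-shapes (`y < t`) and Gamma-shapes (`t < y`), no L-shape and Gamma-shape having
the vertical arms on one line -/
def IsLGamma {V : Type} (H : SimpleGraph V) : Prop :=
  ∃ x y r t : V → ℝ, (∀ a, x a < r a ∧ y a ≠ t a) ∧
    (∀ a b, y a < t a → t b < y b → x a ≠ x b) ∧ ∀ a b, a ≠ b →
    (H.Adj a b ↔ (bent (x a) (y a) (r a) (t a) ∩ bent (x b) (y b) (r b) (t b)).Nonempty)

/-- the cube -/
def adj (a b : Fin 8) : Bool :=
  a.val ^^^ b.val == 1 || a.val ^^^ b.val == 2 || a.val ^^^ b.val == 4

/-- three cubes -/
def dis (a b : Fin 24) : Bool :=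
  a.val / 8 == b.val / 8 && ((a.val % 8) ^^^ (b.val % 8) == 1 ||
    (a.val % 8) ^^^ (b.val % 8) == 2 || (a.val % 8) ^^^ (b.val % 8) == 4)

/-- the complement of three disjoint cubes -/
def H : SimpleGraph (Fin 24) where
  Adj a b := a ≠ b ∧ dis a b = false
  symm := ⟨by decide +kernel⟩
  loopless := ⟨fun _ h => h.1 rfl⟩

/-- first ends of the segments -/
def sp : Fin 24 → ℤ × ℤ := ![(-100, -10), (-100, -40), (-200, -14), (-4000, -11), (-3300, -2),
  (-400, 31), (-1300, 19), (-100, 17), (-80, -210), (-20, -240), (-172, -414), (-3978, -8011),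
  (-3296, -6602), (-462, -769), (-1338, -2581), (-134, -183), (-120, 190), (-180, 160), (-228,
  386), (-4022, 7989), (-3304, 6598), (-338, 831), (-1262, 2619), (-66, 217)]

/-- second ends of the segments -/
def sq : Fin 24 → ℤ × ℤ := ![(100, 37), (400, 26), (4000, 37), (500, 31), (4000, -29), (100,
  -11), (4000, 39), (700, -38), (26, 237), (348, 826), (3926, 8037), (438, 1031), (4058, 7971),
  (122, 189), (3922, 8039), (776, 1362), (174, -163), (452, -774), (4074, -7963), (562, -969),
  (3942, -8029), (78, -211), (4078, -7961), (624, -1438)]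

/-- corners of the one-bend paths -/
def bx : Fin 24 → ℤ := ![20, 18, -21, 19, -19, 16, 21, 22, 14, -12, -10, 10, -14, 13, 7, 6, -3,
  2, -5, -1, 4, -13, -4, -7]

/-- corners of the one-bend paths -/
def bv : Fin 24 → ℤ := ![-3, 6, -4, -5, -6, -7, -1, 4, 9, 13, 14, 12, -10, 11, 16, 10, -19, 22,
  23, -21, -12, -14, 17, 20]

/-- ends of the horizontal arms -/
def bh : Fin 24 → ℤ := ![-17, -22, 17, -23, 15, -20, -18, -24, -9, 11, 5, -8, 12, -11, -15, -16,
  1, -6, 9, 8, -2, 23, 3, 24]

/-- ends of the vertical arms -/
def bt : Fin 24 → ℤ := ![5, -2, 7, 1, 8, 2, 3, -8, -16, -20, -23, -18, 15, -15, -9, -24, 21,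
  -13, -22, 18, 24, 19, -17, -11]

/-- **SEG**. `p a`, `q a` = casts of `sp a`, `sq a`. All pairs are in general position: if
`dis a b = false` then both ends of each segment are on different (strict) sides of the line of the
other one (the segments cross); if `dis a b = true` then the ends of one of them are strictly on one
side of the line of the other one. Two lemmas (orientation determinants) and a `decide` over the
integers. -/
def S_SEG : Prop := IsSEG H

/-- **B1**. `x, y, r, t` = `bx, bv, bh, bt`. A lemma: two bent paths meet iff one of the four pairs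
of arms does (inequalities between coordinates), and a `decide` over the integers. -/
def S_B1 : Prop := IsB1VPG H

/-- the conditions of the combinatorial lemma -/
def R (s : Equiv.Perm (Fin 8)) (u : Fin 8 → Bool) : Prop :=
  ∀ i j : Fin 8, i < j → u (s i) = u (s j) →
    (adj (s i) (s j) = true → ∀ k, j < k → adj (s j) (s k) = false) ∧
    (adj (s i) (s j) = false → ∀ k, j < k → adj (s i) (s k) = true → adj (s j) (s k) = true)

/-- **CMB**. Only the first five vertices `s 0, ..., s 4` and their types matter: staged `decide`
(`∀ a ta b tb, ok2 → ∀ c tc, ok3 → ...`), with `k > j` replaced by `not among the first ones`. -/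
def S_CMB : Prop := ∀ (s : Equiv.Perm (Fin 8)) (u : Fin 8 → Bool), ¬ R s u

/-- **ORD** (from CMB). Let `lo = min y t`, `hi = max y t`. For `x a < x b` the shapes are disjoint
iff `y a < lo b` (type L, `y a < t a`), resp. `hi b < y a` (type Gamma). Sort by `x`
(`Tuple.sort`), then `R` holds: same type L, `a` before `b`, adjacent: `y a < y b`, so a later neighbour `c`
of `b` is a neighbour of `a` too, a triangle; not adjacent: `y b ≤ y a`, so later neighbours of `a`
are neighbours of `b`. -/
def S_ORD : Prop := ∀ x y r t : Fin 8 → ℝ, (∀ a, x a < r a ∧ y a ≠ t a) →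
  (∀ a b, y a < t a → t b < y b → x a ≠ x b) → (∀ a b, x a ≤ r b) →
  (∀ a b, min (y a) (t a) ≤ max (y b) (t b)) →
  ¬ ∀ a b, a ≠ b → (adj a b = false ↔
    (bent (x a) (y a) (r a) (t a) ∩ bent (x b) (y b) (r b) (t b)).Nonempty)

/-- **NL** (from ORD). If in copy `c` (vertices `8 c + a`) there are `a`, `b` with `r b < x a` then all
the shapes of the other copies meet both, so their projections to the first axis contain
`[r b, x a]`; so this happens in at most one copy; similarly for the second axis; apply ORD to the
third copy. -/
def S_NL : Prop := ¬ IsLGamma H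

end Pool.Agent.Run7.h937.LG
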